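import Pool.Agent.Lib.MP_958b88_lc.YTop
import Pool.Agent.Lib.MP_958b88_lc.ZEval

/-!
# Infinitely many additivities of Yorioka ideals are consistent (MP_958b88_lc)

The statement uses the readable definitions of `Pool.Agent.Lib.MP_958b88_lc.ZStmt` (Yorioka
ideals and their additivities, first order over a model `(M, E)`) and the definition of a model
of ZFC in `Pool.Agent.Lib.MP_9708fd_lc.FStmt`.
-/

namespace Pool.Agent.Results.MP_958b88_lc.InfinitelyManyAdditivities

/-- There is a model of ZFC in which the additivities of the Yorioka ideals take infinitely many
values. -/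
theorem result : ∃ (M : Type 1) (E : M → M → Prop),
    MP9708F.ModelsZFC E ∧ MP958.Z.InfinitelyManyAdd E :=
  MP958.Z.exists_model_of_combMain MP958.combMain

end Pool.Agent.Results.MP_958b88_lc.InfinitelyManyAdditivities
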